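import Pool.Agent.Helper32.AG.Goals

/-!
# AG-ELE: the commutator of `x` and `y` lies in `[V, <x, y>]`
-/

set_option autoImplicit false

namespace Pool.Agent.Helper57.AG

universe u

open scoped commutatorElement
open Pool.Agent.Helper32.AG

section

variable {G : Type u} [Group G] {V : Subgroup G} [V.Normal]

theorem Wc_le (x y : G) : Wc V x y ≤ V := by
  have hV : V.Normal := inferInstance
  unfold Wc
  rw [Subgroup.closure_le]
  rintro g ⟨v, hv, h | h⟩
  · rw [h, commutatorElement_def]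
    have : v * x * v⁻¹ * x⁻¹ = v * (x * v⁻¹ * x⁻¹) := by group
    rw [this]
    exact V.mul_mem hv (hV.conj_mem _ (V.inv_mem hv) x)
  · rw [h, commutatorElement_def]
    have : v * y * v⁻¹ * y⁻¹ = v * (y * v⁻¹ * y⁻¹) := by group
    rw [this]
    exact V.mul_mem hv (hV.conj_mem _ (V.inv_mem hv) y)

omit [V.Normal] in
theorem Wc_left {x y v : G} (hv : v ∈ V) : ⁅v, x⁆ ∈ Wc V x y :=
  Subgroup.subset_closure ⟨v, hv, Or.inl rfl⟩

omit [V.Normal] in
theorem Wc_right {x y v : G} (hv : v ∈ V) : ⁅v, y⁆ ∈ Wc V x y :=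
  Subgroup.subset_closure ⟨v, hv, Or.inr rfl⟩

/-- the commutator with `c z` for `c ∈ V` -/
theorem comm_mul (hc : ∀ a ∈ V, ∀ b ∈ V, a * b = b * a) {v c z : G} (hv : v ∈ V)
    (hcV : c ∈ V) : ⁅v, c * z⁆ = ⁅v, z⁆ := by
  have hV : V.Normal := inferInstance
  have h1 : z * v⁻¹ * z⁻¹ ∈ V := hV.conj_mem _ (V.inv_mem hv) z
  have h2 := hc c hcV _ h1
  rw [commutatorElement_def, commutatorElement_def]
  calc v * (c * z) * v⁻¹ * (c * z)⁻¹ = v * (c * (z * v⁻¹ * z⁻¹)) * c⁻¹ := by group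
    _ = v * ((z * v⁻¹ * z⁻¹) * c) * c⁻¹ := by rw [h2]
    _ = v * z * v⁻¹ * z⁻¹ := by group

/-- one conjugation of the generators -/
theorem conj_gen (hc : ∀ a ∈ V, ∀ b ∈ V, a * b = b * a) {g z v c : G} (hv : v ∈ V)
    (hg : g * z * g⁻¹ = c * z) (hcV : c ∈ V) : g * ⁅v, z⁆ * g⁻¹ = ⁅g * v * g⁻¹, z⁆ := by
  have hV : V.Normal := inferInstance
  have h1 : g * ⁅v, z⁆ * g⁻¹ = ⁅g * v * g⁻¹, g * z * g⁻¹⁆ := by
    rw [commutatorElement_def, commutatorElement_def]
    group
  rw [h1, hg, comm_mul hc (hV.conj_mem v hv g) hcV]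

theorem conj_mem_Wc (hc : ∀ a ∈ V, ∀ b ∈ V, a * b = b * a) {x y g cx cy : G}
    (hx : g * x * g⁻¹ = cx * x) (hcx : cx ∈ V) (hy : g * y * g⁻¹ = cy * y) (hcy : cy ∈ V) :
    ∀ w ∈ Wc V x y, g * w * g⁻¹ ∈ Wc V x y := by
  have hV : V.Normal := inferInstance
  intro w hw
  have hle : Wc V x y ≤ (Wc V x y).comap (MulAut.conj g).toMonoidHom := by
    conv_lhs => unfold Wc
    rw [Subgroup.closure_le]
    rintro z ⟨v, hv, h | h⟩
    · rw [SetLike.mem_coe, Subgroup.mem_comap, h]
      change g * ⁅v, x⁆ * g⁻¹ ∈ _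
      rw [conj_gen hc hv hx hcx]
      exact Wc_left (hV.conj_mem v hv g)
    · rw [SetLike.mem_coe, Subgroup.mem_comap, h]
      change g * ⁅v, y⁆ * g⁻¹ ∈ _
      rw [conj_gen hc hv hy hcy]
      exact Wc_right (hV.conj_mem v hv g)
  exact hle hw

end

/-- **Packet ELE.** -/
theorem ele (hq : AgqStmt.{u}) (hn : AgnStmt.{u}) : EleStmt.{u} := by
  intro G _ _ V _ hG hc x y hxy
  have hV : V.Normal := inferInstance
  obtain ⟨W, hW⟩ : ∃ W : Subgroup G, W = Wc V x y := ⟨_, rfl⟩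
  rw [← hW]
  have hWV : W ≤ V := by rw [hW]; exact Wc_le x y
  -- elements whose conjugations preserve `W`, in both directions
  have hnorm : ∀ g : G, (∀ w ∈ W, g * w * g⁻¹ ∈ W) → (∀ w ∈ W, g⁻¹ * w * g ∈ W) →
      g ∈ Subgroup.normalizer (W : Set G) := by
    intro g h1 h2
    rw [Subgroup.mem_normalizer_iff]
    intro w
    constructor
    · exact h1 w
    · intro h
      have h3 := h2 _ h
      have h4 : g⁻¹ * (g * w * g⁻¹) * g = w := by group
      rwa [h4] at h3
  have hyx : ⁅y, x⁆ ∈ V := by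
    rw [← commutatorElement_inv]
    exact V.inv_mem hxy
  have hxN : x ∈ Subgroup.normalizer (W : Set G) := by
    apply hnorm
    · rw [hW]
      refine conj_mem_Wc hc (cx := 1) (cy := ⁅x, y⁆) (by group) V.one_mem ?_ hxy
      rw [commutatorElement_def]
      group
    · intro w hw
      have h1 : x⁻¹ * w * x = x⁻¹ * w * (x⁻¹)⁻¹ := by rw [inv_inv]
      rw [h1]
      rw [hW] at hw ⊢
      refine conj_mem_Wc hc (cx := 1) (cy := x⁻¹ * ⁅y, x⁆ * (x⁻¹)⁻¹) (by group) V.one_mem ?_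
        (hV.conj_mem _ hyx _) w hw
      rw [commutatorElement_def]
      group
  have hyN : y ∈ Subgroup.normalizer (W : Set G) := by
    apply hnorm
    · rw [hW]
      refine conj_mem_Wc hc (cx := ⁅y, x⁆) (cy := 1) ?_ hyx (by group) V.one_mem
      rw [commutatorElement_def]
      group
    · intro w hw
      have h1 : y⁻¹ * w * y = y⁻¹ * w * (y⁻¹)⁻¹ := by rw [inv_inv]
      rw [h1]
      rw [hW] at hw ⊢
      refine conj_mem_Wc hc (cx := y⁻¹ * ⁅x, y⁆ * (y⁻¹)⁻¹) (cy := 1) ?_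
        (hV.conj_mem _ hxy _) (by group) V.one_mem w hw
      rw [commutatorElement_def]
      group
  have hVN : V ≤ Subgroup.normalizer (W : Set G) := by
    intro v hv
    apply hnorm
    · intro w hw
      rw [hc v hv w (hWV hw), mul_inv_cancel_right]
      exact hw
    · intro w hw
      rw [hc v⁻¹ (V.inv_mem hv) w (hWV hw), inv_mul_cancel_right]
      exact hw
  -- the subgroup `N`
  obtain ⟨N, hN⟩ : ∃ N : Subgroup G, N = Subgroup.closure ({x, y} ∪ (V : Set G)) := ⟨_, rfl⟩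
  have hxm : x ∈ N := by rw [hN]; exact Subgroup.subset_closure (Or.inl (Or.inl rfl))
  have hym : y ∈ N := by rw [hN]; exact Subgroup.subset_closure (Or.inl (Or.inr rfl))
  have hleN : ∀ D : Subgroup G, x ∈ D → y ∈ D → V ≤ D → N ≤ D := by
    intro D h1 h2 h3
    rw [hN, Subgroup.closure_le]
    rintro g ((rfl | rfl) | h)
    · exact h1
    · exact h2
    · exact h3 h
  have hNW : N ≤ Subgroup.normalizer (W : Set G) := hleN _ hxN hyN hVN
  -- `[V, N] ≤ W`
  have hVNW : ∀ n ∈ N, ∀ v ∈ V, ⁅v, n⁆ ∈ W := by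
    intro n hn
    have hn' := hn
    rw [hN] at hn
    induction hn using Subgroup.closure_induction with
    | mem g hg =>
      intro v hv
      rcases hg with (rfl | rfl) | h
      · rw [hW]; exact Wc_left hv
      · rw [hW]; exact Wc_right hv
      · rw [commutatorElement_eq_one_iff_mul_comm.2 (hc v hv g h)]
        exact W.one_mem
    | one =>
      intro v hv
      rw [commutatorElement_one_right]
      exact W.one_mem
    | mul a b ha hb iha ihb =>
      intro v hv
      rw [← hN] at ha hb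
      have h1 : ⁅v, a * b⁆ = ⁅v, a⁆ * (a * ⁅v, b⁆ * a⁻¹) := by
        rw [commutatorElement_def, commutatorElement_def, commutatorElement_def]
        group
      rw [h1]
      exact W.mul_mem (iha ha v hv)
        ((Subgroup.mem_normalizer_iff.1 (hNW ha) _).1 (ihb hb v hv))
    | inv a ha iha =>
      intro v hv
      rw [← hN] at ha
      have h1 : ⁅v, a⁻¹⁆ = a⁻¹ * ⁅v, a⁆⁻¹ * (a⁻¹)⁻¹ := by
        rw [commutatorElement_def, commutatorElement_def]
        group
      rw [h1]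
      exact (Subgroup.mem_normalizer_iff.1 (hNW (N.inv_mem ha)) _).1
        (W.inv_mem (iha ha v hv))
  -- `[N, N] ≤ V`
  have hkey : ∀ a b : G, (QuotientGroup.mk' V a) * (QuotientGroup.mk' V b) =
      (QuotientGroup.mk' V b) * (QuotientGroup.mk' V a) ↔ ⁅a, b⁆ ∈ V := by
    intro a b
    rw [← map_mul, ← map_mul, commutatorElement_def]
    change ((a * b : G) : G ⧸ V) = ((b * a : G) : G ⧸ V) ↔ _
    rw [eq_comm, QuotientGroup.eq]
    constructor
    · intro h
      have h1 := hV.conj_mem _ h (b * a)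
      have h2 : b * a * ((b * a)⁻¹ * (a * b)) * (b * a)⁻¹ = a * b * a⁻¹ * b⁻¹ := by group
      rwa [h2] at h1
    · intro h
      have h1 := hV.conj_mem _ h (b * a)⁻¹
      have h2 : (b * a)⁻¹ * (a * b * a⁻¹ * b⁻¹) * ((b * a)⁻¹)⁻¹ = (b * a)⁻¹ * (a * b) := by group
      rwa [h2] at h1
  have hNN : ∀ a ∈ N, ∀ b ∈ N, ⁅a, b⁆ ∈ V := by
    have h1 : N ≤ (Subgroup.centralizer {QuotientGroup.mk' V x, QuotientGroup.mk' V y}).comap
        (QuotientGroup.mk' V) := by
      apply hleN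
      · rw [Subgroup.mem_comap, Subgroup.mem_centralizer_iff]
        rintro g (rfl | rfl)
        · rfl
        · exact (hkey y x).2 hyx
      · rw [Subgroup.mem_comap, Subgroup.mem_centralizer_iff]
        rintro g (rfl | rfl)
        · exact (hkey x y).2 hxy
        · rfl
      · intro v hv
        rw [Subgroup.mem_comap, Subgroup.mem_centralizer_iff]
        intro g _
        have : QuotientGroup.mk' V v = 1 := (QuotientGroup.eq_one_iff v).2 hv
        rw [this, mul_one, one_mul]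
    have h2 : N ≤ (Subgroup.centralizer ((N.map (QuotientGroup.mk' V) : Subgroup (G ⧸ V)) :
        Set (G ⧸ V))).comap (QuotientGroup.mk' V) := by
      apply hleN
      · rw [Subgroup.mem_comap, Subgroup.mem_centralizer_iff]
        rintro g ⟨a, ha, rfl⟩
        have := (Subgroup.mem_centralizer_iff.1 (Subgroup.mem_comap.1 (h1 ha)))
          (QuotientGroup.mk' V x) (Or.inl rfl)
        exact this.symm
      · rw [Subgroup.mem_comap, Subgroup.mem_centralizer_iff]
        rintro g ⟨a, ha, rfl⟩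
        have := (Subgroup.mem_centralizer_iff.1 (Subgroup.mem_comap.1 (h1 ha)))
          (QuotientGroup.mk' V y) (Or.inr rfl)
        exact this.symm
      · intro v hv
        rw [Subgroup.mem_comap, Subgroup.mem_centralizer_iff]
        intro g _
        have : QuotientGroup.mk' V v = 1 := (QuotientGroup.eq_one_iff v).2 hv
        rw [this, mul_one, one_mul]
    intro a ha b hb
    rw [← hkey]
    exact (Subgroup.mem_centralizer_iff.1 (Subgroup.mem_comap.1 (h2 hb)))
      (QuotientGroup.mk' V a) ⟨a, ha, rfl⟩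
  -- the quotient
  have hnormal : (W.subgroupOf N).Normal := Subgroup.normal_subgroupOf_of_le_normalizer hNW
  have hAb : AbS (N ⧸ W.subgroupOf N) :=
    hq.1 N (N ⧸ W.subgroupOf N) (QuotientGroup.mk' _) (QuotientGroup.mk'_surjective _)
      (hq.2 N G N.subtype N.subtype_injective hG)
  have hmk : ∀ a b : N, ((a : N ⧸ W.subgroupOf N) * (b : N ⧸ W.subgroupOf N) =
      (b : N ⧸ W.subgroupOf N) * (a : N ⧸ W.subgroupOf N)) ↔ ⁅(a : G), (b : G)⁆ ∈ W := by
    intro a b
    rw [← QuotientGroup.mk_mul, ← QuotientGroup.mk_mul, eq_comm, QuotientGroup.eq,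
      Subgroup.mem_subgroupOf]
    push_cast
    have hba : ((b : G) * a) ∈ Subgroup.normalizer (W : Set G) := hNW (N.mul_mem b.2 a.2)
    rw [Subgroup.mem_normalizer_iff.1 hba]
    have h2 : (b : G) * a * (((b : G) * a)⁻¹ * ((a : G) * b)) * ((b : G) * a)⁻¹ =
        ⁅(a : G), (b : G)⁆ := by
      rw [commutatorElement_def]
      group
    rw [h2]
  have hnil : Group.IsNilpotent (N ⧸ W.subgroupOf N) := by
    rw [Subgroup.nilpotent_iff_lowerCentralSeries]
    refine ⟨2, ?_⟩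
    change ⁅⁅(⊤ : Subgroup (N ⧸ W.subgroupOf N)), (⊤ : Subgroup (N ⧸ W.subgroupOf N))⁆,
      (⊤ : Subgroup (N ⧸ W.subgroupOf N))⁆ = ⊥
    rw [Subgroup.commutator_eq_bot_iff_le_centralizer, Subgroup.commutator_le]
    intro a _ b _
    obtain ⟨a, rfl⟩ := QuotientGroup.mk_surjective a
    obtain ⟨b, rfl⟩ := QuotientGroup.mk_surjective b
    rw [Subgroup.mem_centralizer_iff]
    intro c _
    obtain ⟨c, rfl⟩ := QuotientGroup.mk_surjective c
    have h1 : ⁅(a : N ⧸ W.subgroupOf N), (b : N ⧸ W.subgroupOf N)⁆ =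
        ((⁅a, b⁆ : N) : N ⧸ W.subgroupOf N) := rfl
    rw [h1, eq_comm, hmk]
    exact hVNW c c.2 _ (hNN a a.2 b b.2)
  have hfin := hn (N ⧸ W.subgroupOf N) hnil hAb ((⟨x, hxm⟩ : N) : N ⧸ W.subgroupOf N)
    ((⟨y, hym⟩ : N) : N ⧸ W.subgroupOf N)
  exact (hmk ⟨x, hxm⟩ ⟨y, hym⟩).1 hfin

end Pool.Agent.Helper57.AG

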